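import Pool.Agent.Y773.D4.Def

/-!
# Job D4-TL (for helper773): elementary consequences of `Rel`
-/

set_option autoImplicit false

open NumberField

namespace Pool.Agent.Y978.D4

open Pool.Agent.Y773.D4

theorem unit_pow (u : GaussianInt) (hu : IsUnit u) : ∃ n : ℕ, u = (⟨0, 1⟩ : GaussianInt) ^ n := by
  have h1 := Zsqrtd.norm_eq_one_iff.2 hu
  have h2 : u.norm = u.re * u.re + u.im * u.im := by
    rw [Zsqrtd.norm_def]
    ring
  have h0 : 0 ≤ u.norm := GaussianInt.norm_nonneg u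
  have h3 : u.re * u.re + u.im * u.im = 1 := by
    rw [← h2]
    omega
  have hre : -1 ≤ u.re ∧ u.re ≤ 1 := ⟨by nlinarith [mul_self_nonneg u.im],
    by nlinarith [mul_self_nonneg u.im]⟩
  have him : -1 ≤ u.im ∧ u.im ≤ 1 := ⟨by nlinarith [mul_self_nonneg u.re],
    by nlinarith [mul_self_nonneg u.re]⟩
  have e1 : u.re = -1 ∨ u.re = 0 ∨ u.re = 1 := by omega
  have e2 : u.im = -1 ∨ u.im = 0 ∨ u.im = 1 := by omega
  obtain ⟨a, b⟩ := u
  simp only at e1 e2 h3
  rcases e1 with rfl | rfl | rfl <;> rcases e2 with rfl | rfl | rfl <;> norm_num at h3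
  · exact ⟨2, by decide⟩
  · exact ⟨3, by decide⟩
  · exact ⟨1, by decide⟩
  · exact ⟨0, by decide⟩

theorem chi_unit {q : GaussianInt} {χ : GaussianInt →* ℂ} (hχ : GC q χ) (u : GaussianInt)
    (hu : IsUnit u) : χ u = 1 := by
  obtain ⟨n, rfl⟩ := unit_pow u hu
  rw [map_pow, hχ.unit, one_pow]

theorem chI_span {q : GaussianInt} {χ : GaussianInt →* ℂ} (hχ : GC q χ) (z : GaussianInt) :
    chI χ (Ideal.span {z}) = χ z := by
  unfold chI
  obtain ⟨u, hu⟩ := Submodule.IsPrincipal.associated_generator_span_self z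
  rw [← hu, map_mul, chi_unit hχ _ u.isUnit, mul_one, hu]

theorem chI_mul {q : GaussianInt} {χ : GaussianInt →* ℂ} (hχ : GC q χ)
    (𝔪 𝔫 : Ideal GaussianInt) : chI χ (𝔪 * 𝔫) = chI χ 𝔪 * chI χ 𝔫 := by
  have h1 : 𝔪 * 𝔫 = Ideal.span {Submodule.IsPrincipal.generator 𝔪 *
      Submodule.IsPrincipal.generator 𝔫} := by
    rw [← Ideal.span_singleton_mul_span_singleton, Ideal.span_singleton_generator,
      Ideal.span_singleton_generator]
  rw [h1, chI_span hχ, map_mul]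
  rfl

section

variable {M : Type} [Field M] [NumberField M] [Algebra GaussianInt (𝓞 M)] {σ : M ≃ₐ[ℚ] M}
  {Nm : Ideal (𝓞 M) →*₀ Ideal GaussianInt}

local instance : IsIntegrallyClosed GaussianInt := inferInstance

theorem unit_of (h : Rel σ Nm) {d : GaussianInt} (hd : IsUnit (algebraMap GaussianInt (𝓞 M) d)) :
    IsUnit d := by
  obtain ⟨y, hy⟩ := hd.exists_right_inv
  obtain ⟨z, hz⟩ := h.ex y
  have h1 : algebraMap GaussianInt (𝓞 M) d * sg σ y = 1 := by
    rw [← h.fix d, ← map_mul, hy, map_one]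
  have h2 : algebraMap GaussianInt (𝓞 M) (d * (d * z)) = algebraMap GaussianInt (𝓞 M) 1 := by
    rw [map_mul, map_mul, hz, map_one]
    linear_combination h1 + algebraMap GaussianInt (𝓞 M) d * sg σ y * hy
  exact IsUnit.of_mul_eq_one _ (h.inj h2)

theorem cj_span (σ : M ≃ₐ[ℚ] M) (x : 𝓞 M) : cj σ (Ideal.span {x}) = Ideal.span {sg σ x} := by
  unfold cj
  rw [Ideal.map_span, Set.image_singleton]

theorem cj_mul (σ : M ≃ₐ[ℚ] M) (𝔞 𝔟 : Ideal (𝓞 M)) : cj σ (𝔞 * 𝔟) = cj σ 𝔞 * cj σ 𝔟 := by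
  unfold cj
  exact Ideal.map_mul _ _ _

theorem cj_cj (h : Rel σ Nm) (𝔞 : Ideal (𝓞 M)) : cj σ (cj σ 𝔞) = 𝔞 := by
  show Ideal.map ((sg σ : 𝓞 M ≃+* 𝓞 M) : 𝓞 M →+* 𝓞 M)
    (Ideal.map ((sg σ : 𝓞 M ≃+* 𝓞 M) : 𝓞 M →+* 𝓞 M) 𝔞) = 𝔞
  rw [Ideal.map_map]
  have h1 : ((sg σ : 𝓞 M ≃+* 𝓞 M) : 𝓞 M →+* 𝓞 M).comp ((sg σ : 𝓞 M ≃+* 𝓞 M) : 𝓞 M →+* 𝓞 M) =
      RingHom.id _ := RingHom.ext fun x => h.sg2 x
  rw [h1, Ideal.map_id]

theorem up_mul (a b : GaussianInt) : up M (a * b) = up M a * up M b := by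
  unfold up
  rw [Ideal.span_singleton_mul_span_singleton, map_mul]

theorem cj_up (h : Rel σ Nm) (z : GaussianInt) : cj σ (up M z) = up M z := by
  unfold up
  rw [cj_span, h.fix]

/-- `cj σ` as an equivalence -/
noncomputable def cjE (h : Rel σ Nm) : Ideal (𝓞 M) ≃* Ideal (𝓞 M) where
  toFun := cj σ
  invFun := cj σ
  left_inv := cj_cj h
  right_inv := cj_cj h
  map_mul' := cj_mul σ

theorem cj_one (h : Rel σ Nm) : cj σ (1 : Ideal (𝓞 M)) = 1 := map_one (cjE h)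

theorem cj_prime (h : Rel σ Nm) (P : Ideal (𝓞 M)) (hP : Prime P) : Prime (cj σ P) :=
  (MulEquiv.prime_iff (cjE h)).2 hP

theorem cj_dvd (σ : M ≃ₐ[ℚ] M) (𝔞 𝔟 : Ideal (𝓞 M)) (h : 𝔞 ∣ 𝔟) : cj σ 𝔞 ∣ cj σ 𝔟 := by
  obtain ⟨c, rfl⟩ := h
  rw [cj_mul]
  exact Dvd.intro _ rfl

theorem up_dvd (h : Rel σ Nm) (a b : GaussianInt) : up M a ∣ up M b ↔ a ∣ b := by
  unfold up
  rw [Ideal.dvd_span_singleton, Ideal.mem_span_singleton]
  constructor
  · rintro ⟨y, hy⟩
    by_cases ha : a = 0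
    · rw [ha, map_zero, zero_mul] at hy
      have hb : b = 0 := h.inj (by rw [hy, map_zero])
      rw [hb]
      exact dvd_zero _
    · have ha' : algebraMap GaussianInt (𝓞 M) a ≠ 0 := fun h0 =>
        ha (h.inj (by rw [h0, map_zero]))
      have h1 : algebraMap GaussianInt (𝓞 M) b = algebraMap GaussianInt (𝓞 M) a * sg σ y := by
        rw [← h.fix b, hy, map_mul, h.fix]
      have h2 : y = sg σ y := mul_left_cancel₀ ha' (by rw [← hy, h1])
      obtain ⟨z, hz⟩ := h.ex y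
      rw [← h2] at hz
      have h3 : b ^ 2 = a ^ 2 * z := by
        apply h.inj
        rw [map_pow, map_mul, map_pow, hz, hy]
        ring
      exact (IsIntegrallyClosed.pow_dvd_pow_iff two_ne_zero).1 (Dvd.intro _ h3.symm)
  · exact fun h1 => map_dvd _ h1

theorem coprime_up {a b : GaussianInt} (h : IsCoprime a b) : IsCoprime (up M a) (up M b) := by
  obtain ⟨u, v, huv⟩ := h
  rw [Ideal.isCoprime_iff_exists]
  refine ⟨algebraMap GaussianInt (𝓞 M) (u * a), ?_, algebraMap GaussianInt (𝓞 M) (v * b), ?_, ?_⟩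
  · rw [map_mul]
    exact Ideal.mul_mem_left _ _ (Ideal.mem_span_singleton_self _)
  · rw [map_mul]
    exact Ideal.mul_mem_left _ _ (Ideal.mem_span_singleton_self _)
  · rw [← map_add, huv, map_one]

theorem cop_of_up (h : Rel σ Nm) {a b : GaussianInt} (hb : b ≠ 0)
    (hc : IsCoprime (up M a) (up M b)) : IsCoprime a b := by
  apply isCoprime_of_prime_dvd
  · rintro ⟨-, h0⟩
    exact hb h0
  · intro p hp hpa hpb
    have h1 := (up_dvd h p a).2 hpa
    have h2 := (up_dvd h p b).2 hpb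
    have h3 : IsUnit (up M p) := hc.isUnit_of_dvd' h1 h2
    rw [Ideal.isUnit_iff, up, Ideal.span_singleton_eq_top] at h3
    exact hp.not_isUnit (unit_of h h3)

theorem map_gen (𝔫 : Ideal GaussianInt) : 𝔫.map (algebraMap GaussianInt (𝓞 M)) =
    up M (Submodule.IsPrincipal.generator 𝔫) := by
  unfold up
  conv_lhs => rw [← Ideal.span_singleton_generator 𝔫]
  rw [Ideal.map_span, Set.image_singleton]

theorem cop_iff (h : Rel σ Nm) {q : GaussianInt} (hq : q ≠ 0) (𝔞 : Ideal (𝓞 M)) :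
    IsCoprime (Submodule.IsPrincipal.generator (Nm 𝔞)) q ↔ IsCoprime 𝔞 (up M q) := by
  have h2 := h.nm2 𝔞
  rw [map_gen] at h2
  constructor
  · intro hc
    have h1 := coprime_up (M := M) hc
    rw [h2] at h1
    exact h1.of_mul_left_left
  · intro hc
    apply cop_of_up h hq
    rw [h2]
    refine hc.mul_left ?_
    have h3 := (cj_up h q)
    rw [← h3]
    have h4 := hc
    rw [Ideal.isCoprime_iff_sup_eq] at h4 ⊢
    unfold cj
    rw [← Ideal.map_sup, h4]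
    exact Ideal.map_top _

theorem ovr (h : Rel σ Nm) (P : Ideal (𝓞 M)) (hP : Prime P) : ∃ p : GaussianInt, Prime p ∧
    P ∣ up M p ∧ ∀ z : GaussianInt, P ∣ up M z → p ∣ z := by
  have hPp : P.IsPrime := Ideal.isPrime_of_prime hP
  have hc : (P.comap (algebraMap GaussianInt (𝓞 M))).IsPrime := Ideal.comap_isPrime _ _
  have hne : P.comap (algebraMap GaussianInt (𝓞 M)) ≠ ⊥ := by
    intro h0
    obtain ⟨x, hx, hx0⟩ := Submodule.exists_mem_ne_zero_of_ne_bot hP.ne_zero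
    obtain ⟨z, hz⟩ := h.ex x
    have h1 : z ∈ P.comap (algebraMap GaussianInt (𝓞 M)) := by
      rw [Ideal.mem_comap, hz]
      exact Ideal.mul_mem_right _ _ hx
    rw [h0, Ideal.mem_bot] at h1
    rw [h1, map_zero] at hz
    rcases mul_eq_zero.1 hz.symm with h2 | h2
    · exact hx0 h2
    · apply hx0
      apply (sg σ).injective
      rw [h2, map_zero]
  have hmem : ∀ z : GaussianInt, P ∣ up M z ↔ z ∈ P.comap (algebraMap GaussianInt (𝓞 M)) := by
    intro z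
    unfold up
    rw [Ideal.dvd_span_singleton, Ideal.mem_comap]
  refine ⟨Submodule.IsPrincipal.generator (P.comap (algebraMap GaussianInt (𝓞 M))),
    Submodule.IsPrincipal.prime_generator_of_isPrime _ hne, ?_, ?_⟩
  · rw [hmem]
    exact Submodule.IsPrincipal.generator_mem _
  · intro z hz
    rw [hmem] at hz
    exact (Submodule.IsPrincipal.mem_iff_generator_dvd _).1 hz

theorem above (h : Rel σ Nm) (p : GaussianInt) (hp : Prime p) (P Q : Ideal (𝓞 M)) (hP : Prime P)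
    (hQ : Prime Q) (hPp : P ∣ up M p) (hQp : Q ∣ up M p) : Q = P ∨ Q = cj σ P := by
  obtain ⟨g, hg⟩ : ∃ g, g = Submodule.IsPrincipal.generator (Nm P) := ⟨_, rfl⟩
  have hNP : Nm P = Ideal.span {g} := by rw [hg, Ideal.span_singleton_generator]
  have h2 := h.nm2 P
  rw [map_gen, ← hg] at h2
  have h3 : g ∣ p ^ 2 := by
    obtain ⟨R, hR⟩ := hPp
    have h4 := congrArg Nm hR
    rw [map_mul, hNP] at h4
    have h5 : Nm (up M p) = Ideal.span {p ^ 2} := h.nm1 _ _ (by rw [h.fix, map_pow, sq])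
    rw [h5] at h4
    exact Ideal.span_singleton_dvd_span_singleton_iff_dvd.1 (Dvd.intro _ h4.symm)
  have h4 : ¬ IsUnit g := by
    intro hu
    have h5 : up M g = ⊤ := by
      unfold up
      rw [Ideal.span_singleton_eq_top]
      exact hu.map _
    rw [h5, ← Ideal.one_eq_top] at h2
    exact hP.not_isUnit (IsUnit.of_mul_eq_one _ h2.symm)
  have h5 : p ∣ g := by
    obtain ⟨k, hk, hkg⟩ := (dvd_prime_pow hp 2).1 h3
    have hk0 : k ≠ 0 := by
      rintro rfl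
      rw [pow_zero] at hkg
      exact h4 (associated_one_iff_isUnit.1 hkg)
    exact (dvd_pow_self p hk0).trans hkg.symm.dvd
  have h6 : Q ∣ P * cj σ P := by
    rw [← h2]
    exact hQp.trans ((up_dvd h p g).2 h5)
  rcases hQ.dvd_or_dvd h6 with h7 | h7
  · left
    exact associated_iff_eq.1 ((Prime.dvd_prime_iff_associated hQ hP).1 h7)
  · right
    exact associated_iff_eq.1 ((Prime.dvd_prime_iff_associated hQ (cj_prime h P hP)).1 h7)

end

theorem t_tl : St_TL := by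
  intro M _ _ _ σ Nm h
  refine ⟨?_, fun q χ hχ z => chI_span hχ z, fun q χ hχ 𝔪 𝔫 => chI_mul hχ 𝔪 𝔫, ?_, ?_,
    up_dvd h, up_mul, cj_up h, cj_mul σ, cj_cj h, cj_dvd σ, cj_prime h, cj_span σ, ovr h, above h⟩
  · intro x τ
    exfalso
    have h1 : (⟨0, 1⟩ : GaussianInt) ^ 2 = -1 := by decide
    have h2 : (algebraMap GaussianInt (𝓞 M) ⟨0, 1⟩) ^ 2 = -1 := by
      rw [← map_pow, h1, map_neg, map_one]
    have h3 : ((algebraMap GaussianInt (𝓞 M) ⟨0, 1⟩ : 𝓞 M) : M) ^ 2 = -1 := by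
      have := congrArg (algebraMap (𝓞 M) M) h2
      rw [map_pow, map_neg, map_one] at this
      exact this
    have h4 := congrArg τ h3
    rw [map_pow, map_neg, map_one] at h4
    nlinarith [sq_nonneg (τ ((algebraMap GaussianInt (𝓞 M) ⟨0, 1⟩ : 𝓞 M) : M))]
  · intro q χ hχ 𝔞
    unfold chI
    rw [hχ.supp]
    exact cop_iff h hχ.q0 𝔞
  · intro q χ hχ 𝔞 hc
    exact hχ.nrm _ ((cop_iff h hχ.q0 𝔞).2 hc)

end Pool.Agent.Y978.D4
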